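import Mathlib
import Pool.Agent.H32.Kun2

open Set Filter Function Topology

namespace Pool.Agent.Results.MP_6ed562_lc.NotIso

open Pool.Agent.H32 UFA UFB Kun2

/-- ultrafilters on `ℕ` with the Rudin-Keisler preorder -/
def RKU : Type := Ultrafilter ℕ

instance : Preorder RKU where
  le u v := ∃ f : ℕ → ℕ, Ultrafilter.map f v = u
  le_refl := RK.refl
  le_trans _ _ _ := RK.trans

def UComp (u : Ultrafilter ℕ) (X : Type) [TopologicalSpace X] : Prop :=
  ∀ x : ℕ → X, ∃ y : X, Tendsto x u (𝓝 y)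

/-- ultrafilters on `ℕ` with the Comfort preorder -/
def CU : Type := Ultrafilter ℕ

instance : Preorder CU where
  le u v := ∀ (X : Type) [TopologicalSpace X] [T35Space X], UComp v X → UComp u X
  le_refl _ _ _ _ h := h
  le_trans _ _ _ h k X _ _ z := h X (k X z)

lemma U1 {a b : UF} (ha : WP a) (n : ¬ RK a b) {h : ℕ → ℕ} (e : (tens a b).map h = a) :
    {k | h k = k.unpair.1} ∈ tens a b := by
  rcases ha.2 a (fun n => b.map (h ∘ Nat.pair n)) e.symm with k | k
  · choose! t ht using fun n (hn : ¬ NP (b.map (h ∘ Nat.pair n))) => not_forall_not.1 hn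
    have := katetov (u := a) (f := t) (((UFA.bind_congr (g' := fun n => pure (t n))
      (mem_of_superset k ht)).symm.trans e :))
    refine mem_of_superset (f := (a : Filter ℕ)) (inter_mem k this) fun i hi => ?_
    exact mem_of_superset (f := (b : Filter ℕ)) (map_eq_pure.1 (ht i hi.1)) fun j hj => by
      simpa [hi.2.out] using hj
  · obtain ⟨i, hi⟩ := Ultrafilter.nonempty_of_mem k
    exact (n ⟨_, hi⟩).elim

lemma U2 {a b : UF} (hb : WP b) (n : ¬ RK b a) {h : ℕ → ℕ} (e : (tens a b).map h = b) :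
    {k | h k = k.unpair.2} ∈ tens a b := by
  rcases hb.2 a (fun n => b.map (h ∘ Nat.pair n)) e.symm with k | k
  · choose! t ht using fun n (hn : ¬ NP (b.map (h ∘ Nat.pair n))) => not_forall_not.1 hn
    exact (n ⟨t, ((UFA.bind_congr (g' := fun n => pure (t n))
      (mem_of_superset k ht)).symm.trans e :)⟩).elim
  · refine mem_of_superset (f := (a : Filter ℕ)) k fun i hi => ?_
    exact mem_of_superset (f := (b : Filter ℕ)) (katetov hi) fun j hj => by simpa using hj

lemma lt {a b w : UF} (ha : WP a) (hb : WP b) (n : ¬ RK a b) (n' : ¬ RK b a) {f g : ℕ → ℕ}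
    (hf : w.map f = a) (hg : w.map g = b) (h : RK w (tens a b)) : {k | f k < g k} ∈ w := by
  obtain ⟨h, rfl⟩ := h
  have : {k | k.unpair.1 < k.unpair.2} ∈ tens a b :=
    univ_mem' (f := (a : Filter ℕ)) fun i => by
      simpa [Ioi] using Ultrafilter.compl_mem_iff_notMem.2 (hb.1.fin (finite_Iic i))
  show {k | f (h k) < g (h k)} ∈ tens a b
  filter_upwards [U1 ha n (h := f ∘ h) hf, U2 hb n' (h := g ∘ h) hg, this] with k k1 k2 k3
  exact (k1.trans_lt k3).trans_eq k2.symm

theorem result :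
    IsEmpty (Antisymmetrization RKU (· ≤ ·) ≃o Antisymmetrization CU (· ≤ ·)) := by
  refine ⟨fun Φ => ?_⟩
  obtain ⟨w, w1, w2⟩ := exists_pair
  let r : UF → Antisymmetrization RKU (· ≤ ·) := toAntisymmetrization (α := RKU) (· ≤ ·)
  let c : UF → Antisymmetrization CU (· ≤ ·) := toAntisymmetrization (α := CU) (· ≤ ·)
  have rs : Surjective r := Quotient.mk_surjective
  have cs : Surjective c := Quotient.mk_surjective
  obtain ⟨a, ha⟩ := cs (Φ (r (w true)))
  obtain ⟨b, hb⟩ := cs (Φ (r (w false)))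
  obtain ⟨z, hz⟩ := rs (Φ.symm (c (tens a b)))
  obtain ⟨f, hf⟩ : r (w true) ≤ r z := by
    rw [hz, Φ.le_symm_apply, ← ha]
    exact c_of_rk ⟨_, tens_fst a b⟩
  obtain ⟨g, hg⟩ : r (w false) ≤ r z := by
    rw [hz, Φ.le_symm_apply, ← hb]
    refine c_of_rk ⟨fun k => k.unpair.2, ?_⟩
    rw [tens, UFA.map_bind]
    exact (congrArg a.bind (funext (col_snd b))).trans (bind_const _ _)
  have k : ∀ t, RK (w true) t → RK (w false) t → RK z t := fun t t1 t2 => by
    obtain ⟨s, hs⟩ := cs (Φ (r t))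
    have s1 : c a ≤ c s := by rw [ha, hs]; exact Φ.monotone t1
    have s2 : c b ≤ c s := by rw [hb, hs]; exact Φ.monotone t2
    show r z ≤ r t
    rw [hz, Φ.symm_apply_le, ← hs]
    exact fun X _ _ h => uc_tens (s1 X h) (s2 X h)
  have snd : ∀ a b : UF, RK b (tens a b) := fun a b => ⟨fun k => k.unpair.2, by
    rw [tens, UFA.map_bind]
    exact (congrArg a.bind (funext (col_snd b))).trans (bind_const _ _)⟩
  obtain ⟨n, n1, n2⟩ := Ultrafilter.nonempty_of_mem (inter_mem
    (lt (w1 _) (w1 _) (w2 false) (w2 true) hf hg (k _ ⟨_, tens_fst _ _⟩ (snd _ _)))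
    (lt (w1 _) (w1 _) (w2 true) (w2 false) hg hf (k _ (snd _ _) ⟨_, tens_fst _ _⟩)))
  exact lt_asymm n1.out n2.out

end Pool.Agent.Results.MP_6ed562_lc.NotIso
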